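import Pool.Agent.Helper1.DP.Final
import Pool.Agent.Helper1.DP.DpMin

/-!
# No countable test set of coheirs for dp-minimal theories (MP_d4560b_lc, Q2)

There is a complete dp-minimal (and NIP) theory in a countable language, a countable model `M` and
a complete `2`-type `q` over `M` such that for every set `Q` of fewer than continuum many coheirs
of `q` (in particular for every countable one) some `M`-invariant global type commutes over `M`
with all members of `Q` but does not commute over `M` with some coheir of `q`.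
-/

open FirstOrder FirstOrder.Language Set Cardinal
open Pool.Agent.Helper1.CT Pool.Agent.Helper1.DP

namespace Pool.Agent.Results.MP_d4560b_lc.DpMinimalNoTestSet

universe u

theorem result : ∃ (L : FirstOrder.Language.{0, 0}) (T : L.Theory), L.card ≤ ℵ₀ ∧ T.IsComplete ∧
    IsDpMinimal.{u} T ∧ IsNIP.{u} T ∧ ∃ (M₀ : Type) (_ : L.Structure M₀), Countable M₀ ∧ M₀ ⊨ T ∧
      ∀ (U : Type u) [L.Structure U], IsSaturated L U → ∀ f : M₀ ↪ₑ[L] U,
        ∃ q : TypeOver L (range f) (Fin 2), ∀ Q : Set (GlobalType L U (Fin 2)),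
          (∀ r ∈ Q, IsCoheir (range f) q r) → #Q < 𝔠 →
          ∃ p : GlobalType L U (Fin 1), IsInvariant (range f) p ∧ FinSat (range f) p ∧
            (∀ r ∈ Q, Commute (range f) p r) ∧
            ∃ r : GlobalType L U (Fin 2), IsCoheir (range f) q r ∧ ¬ Commute (range f) p r := by
  refine ⟨Pool.Agent.Helper1.DP.LL, Pool.Agent.Helper1.DP.TT, Pool.Agent.Helper1.DP.card_LL,
    completeTheory.isComplete Pool.Agent.Helper1.DP.LL Pool.Agent.Helper1.DP.Y, dpMinimal_TT,
    Pool.Agent.Helper1.DP.nip_TT, Pool.Agent.Helper1.DP.Y, Pool.Agent.Helper1.DP.instY,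
    inferInstance, inferInstance, ?_⟩
  intro U _ hU f
  have hmod : U ⊨ Pool.Agent.Helper1.DP.TT := (f.theory_model_iff _).1 inferInstance
  exact ⟨Pool.Agent.Helper1.DP.qType f, fun Q hQ hcard =>
    Pool.Agent.Helper1.DP.main_statement f hU Q hQ hcard⟩

end Pool.Agent.Results.MP_d4560b_lc.DpMinimalNoTestSet
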