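import Pool.Agent.Helper1.CT.Final

/-!
# No countable test set of coheirs (MP_d4560b_lc, Q1)

There is a complete NIP theory in a countable language, a countable model `M` and a complete
`1`-type `q` over `M` such that for every set `Q` of fewer than continuum many coheirs of `q` (in
particular for every countable one) some `M`-invariant global type commutes over `M` with all
members of `Q` but does not commute over `M` with some coheir of `q`.
-/

open FirstOrder FirstOrder.Language Set Cardinal
open Pool.Agent.Helper1.CT

namespace Pool.Agent.Results.MP_d4560b_lc.NoSmallTestSet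

universe u

theorem result : ∃ (L : FirstOrder.Language.{0, 0}) (T : L.Theory), L.card ≤ ℵ₀ ∧ T.IsComplete ∧
    IsNIP.{u} T ∧ ∃ (M₀ : Type) (_ : L.Structure M₀), Countable M₀ ∧ M₀ ⊨ T ∧
      ∀ (U : Type u) [L.Structure U], IsSaturated L U → ∀ f : M₀ ↪ₑ[L] U,
        ∃ q : TypeOver L (range f) (Fin 1), ∀ Q : Set (GlobalType L U (Fin 1)),
          (∀ r ∈ Q, IsCoheir (range f) q r) → #Q < 𝔠 →
          ∃ p : GlobalType L U (Fin 1), IsInvariant (range f) p ∧ FinSat (range f) p ∧
            (∀ r ∈ Q, Commute (range f) p r) ∧
            ∃ r : GlobalType L U (Fin 1), IsCoheir (range f) q r ∧ ¬ Commute (range f) p r := by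
  refine ⟨LL, TT, card_LL, completeTheory.isComplete LL Y, nip_TT, Y, instY, inferInstance,
    inferInstance, ?_⟩
  intro U _ hU f
  have hmod : U ⊨ TT := (f.theory_model_iff TT).1 inferInstance
  exact ⟨qType f, fun Q hQ hcard => main_statement f hU Q hQ hcard⟩

end Pool.Agent.Results.MP_d4560b_lc.NoSmallTestSet
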